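import Mathlib
import Pool.Agent.Helper5.Sym.Defs
import Pool.Agent.Helper5.Sym.Card

set_option autoImplicit false

namespace Pool.Agent.Results.MP_92c8f1_an.NonVanishing

open Pool.Agent.Helper5.Sym

/-- Sanity check: the coboundary of a `1`-cochain. -/
lemma coboundary_one {A : Type} [NormedRing A] [NormedAlgebra ℂ A] {X : Type}
    [NormedAddCommGroup X] [NormedSpace ℂ X] (act : A → X → X) (f : (Fin 1 → A) → X) (a b : A) :
    coboundary act f ![a, b] = act a (f ![b]) - f ![a * b] + act b (f ![a]) := by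
  have h1 : (fun k : Fin 1 => (![a, b] : Fin 2 → A) k.succ) = ![b] := by
    funext k; fin_cases k; rfl
  have h2 : (fun k : Fin 1 => (![a, b] : Fin 2 → A) k.castSucc) = ![a] := by
    funext k; fin_cases k; rfl
  have h3 : mergeAt 0 (![a, b] : Fin 2 → A) = ![a * b] := by
    funext k; fin_cases k; rfl
  have h4 : (![a, b] : Fin 2 → A) (Fin.last 1) = b := rfl
  have h5 : (![a, b] : Fin 2 → A) 0 = a := rfl
  unfold coboundary
  rw [h1, h2, h4, h5, Finset.sum_range_one, h3]
  norm_num [sub_eq_add_neg]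

/-- Sanity check: the coboundary of a `2`-cochain. -/
lemma coboundary_two {A : Type} [NormedRing A] [NormedAlgebra ℂ A] {X : Type}
    [NormedAddCommGroup X] [NormedSpace ℂ X] (act : A → X → X) (f : (Fin 2 → A) → X)
    (a b c : A) :
    coboundary act f ![a, b, c] =
      act a (f ![b, c]) - f ![a * b, c] + f ![a, b * c] - act c (f ![a, b]) := by
  have h1 : (fun k : Fin 2 => (![a, b, c] : Fin 3 → A) k.succ) = ![b, c] := by
    funext k; fin_cases k <;> rfl
  have h2 : (fun k : Fin 2 => (![a, b, c] : Fin 3 → A) k.castSucc) = ![a, b] := by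
    funext k; fin_cases k <;> rfl
  have h3 : mergeAt 0 (![a, b, c] : Fin 3 → A) = ![a * b, c] := by
    funext k; fin_cases k <;> rfl
  have h3' : mergeAt 1 (![a, b, c] : Fin 3 → A) = ![a, b * c] := by
    funext k; fin_cases k <;> rfl
  have h4 : (![a, b, c] : Fin 3 → A) (Fin.last 2) = c := rfl
  have h5 : (![a, b, c] : Fin 3 → A) 0 = a := rfl
  unfold coboundary
  rw [h1, h2, h4, h5, Finset.sum_range_succ, Finset.sum_range_one, h3, h3']
  norm_num [sub_eq_add_neg, add_assoc, pow_succ]

/-- There is a compact Hausdorff space `Ω` such that for every `n ≥ 3` some symmetric Banach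
`C(Ω)`-bimodule `X` has nonzero `n`-th continuous Hochschild cohomology. -/
theorem result : ∃ (Ω : Type) (_ : TopologicalSpace Ω) (_ : CompactSpace Ω) (_ : T2Space Ω),
    ∀ n : ℕ, 3 ≤ n → ∃ (X : Type) (_ : NormedAddCommGroup X) (_ : NormedSpace ℂ X)
      (_ : CompleteSpace X) (act : C(Ω, ℂ) → X → X),
      IsSymBimodule act ∧ ¬ CohomologyVanishes act n := by
  refine ⟨Om (Σ j, EE j), inferInstance, inferInstance, inferInstance, fun n hn => ?_⟩
  obtain ⟨m, rfl⟩ : ∃ m, n = m + 2 := ⟨n - 2, by omega⟩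
  refine ⟨XX (Σ j, EE j) m, inferInstance, inferInstance, inferInstance,
    trivAct (eps (Σ j, EE j)), trivAct_isSym _ _, fun h => ?_⟩
  obtain ⟨g, hg, hcob⟩ := h cocy cocy_isCochain cocy_cocycle
  exact cocy_not_coboundary (by omega) g hg hcob

end Pool.Agent.Results.MP_92c8f1_an.NonVanishing
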